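import Pool.Agent.H.MP_0447ec_lc.PS.Canon2

/-!
# The canonical pairs of Frege with the permutation rule and of extended Frege are equivalent
-/

namespace Pool.Agent.H.MP_0447ec_lc.CanonicalPairs

open Pool.Agent.H.MP_0447ec_lc.PS

/-- For every Frege system `F`: the canonical disjoint NP pairs of `F` with the extension rule and
of `F` with the permutation rule are reducible to each other by polynomial-time many-one
reductions. -/
theorem result (F : List Rule) (hF : IsFrege F) :
    CanonicalPairReduces (ExtProof F) (PermProof F) ∧
      CanonicalPairReduces (PermProof F) (ExtProof F) :=
  canonical_equiv hF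

end Pool.Agent.H.MP_0447ec_lc.CanonicalPairs
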