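import Pool.Agent.H.MP_0447ec_lc.LV.Above2

/-!
# Closed proof systems p-simulate the permutation rule iff they p-simulate the extension rule
-/

namespace Pool.Agent.H.MP_0447ec_lc.ClosedSystems

open Pool.Agent.H.MP_0447ec_lc.PS

/-- For every Frege system `F`: a proof system that is p-closed under the contraction of disjoint
copies, or is p-closed under derivations in `F` and under restrictions by constants or under
renaming (with identification) of variables, p-simulates `F` with the permutation rule if and
only if it p-simulates `F` with the extension rule. In particular this holds for `F` itself; and
`F` with the permutation rule p-simulates extended Frege if and only if it is p-closed under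
restrictions, if and only if it is p-closed under renaming, if and only if it is p-closed under
the contraction of disjoint copies. -/
theorem result (F : List Rule) (hF : IsFrege F) :
    (∀ P : Fm → List Fm → Prop, (ClosedUnderContraction P ∨
        (ClosedUnderDerivations F P ∧ (ClosedUnderRestrictions P ∨ ClosedUnderRenaming P))) →
      (PSimulates P (PermProof F) ↔ PSimulates P (ExtProof F))) ∧
    (PSimulates (FregeProof F) (PermProof F) ↔ PSimulates (FregeProof F) (ExtProof F)) ∧
    (PSimulates (PermProof F) (ExtProof F) ↔ ClosedUnderRestrictions (PermProof F)) ∧
    (PSimulates (PermProof F) (ExtProof F) ↔ ClosedUnderRenaming (PermProof F)) ∧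
    (PSimulates (PermProof F) (ExtProof F) ↔ ClosedUnderContraction (PermProof F)) :=
  ⟨fun _ h => h.elim (fun hC => above_con_iff hF hC) (fun h => above_iff hF h.1 h.2),
    collapse_iff hF, (closed_iff_simulates hF).symm, (asmC hF).2.2.1, (asmC hF).2.1⟩

end Pool.Agent.H.MP_0447ec_lc.ClosedSystems
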