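import Pool.Agent.H.MP_0447ec_lc.LV.AsmA
import Pool.Agent.H.MP_0447ec_lc.LV.AsmB2

/-!
# Frege with the permutation rule p-simulates extended Frege iff substitution Frege with linearly
many variables does
-/

namespace Pool.Agent.H.MP_0447ec_lc.LinearVariables

open Pool.Agent.H.MP_0447ec_lc.PS

/-- For every Frege system `F` and every proof system `Q` that is p-closed under substitutions,
`F` with the permutation rule p-simulates `Q` if and only if substitution Frege with linearly
many variables p-simulates `Q`: some polynomial-time algorithm maps every `Q`-proof `π` of every
formula `A` to a substitution Frege proof of `A` with at most `c * (n + log₂ |π|)` different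
variables, for a constant `c`, where `n` is the number of variables of `A` and `|π|` is the
length of the binary code of `π`. In particular this holds for extended Frege. -/
theorem result (F : List Rule) (hF : IsFrege F) :
    (∀ Q : Fm → List Fm → Prop, ClosedUnderSubstitution Q →
      (PSimulates (PermProof F) Q ↔ LinearSimulates F Q)) ∧
    (PSimulates (PermProof F) (ExtProof F) ↔ LinearSimulates F (ExtProof F)) :=
  ⟨fun _ hQ => ⟨asmA hF hQ, asmB hF hQ⟩, ⟨asmA hF (ext_closedSub F), asmB hF (ext_closedSub F)⟩⟩

end Pool.Agent.H.MP_0447ec_lc.LinearVariables
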